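import Pool.Agent.helper80.HM.SpecC

/-!
# MP_069684, row hm:HCB: arithmetic for the half clique function
-/

set_option autoImplicit false

namespace Pool.Agent.HM

open Finset Pool.Agent.helper38.Neg Pool.Agent.helper55.NT
open Pool.Agent.LN (HC)

private theorem HCB_core (e C n a t s B l M : ℕ) (hC : 100 * (4 * e + 12) ≤ C)
    (hB16 : 16 ≤ B) (hnB : 2 ^ B ≤ n + 2) (hnB' : n + 2 < 2 ^ (B + 1)) (hl1 : 1 ≤ l)
    (hBl : B < 2 ^ (l + 1)) (hM : M * M ≤ n) (hM' : ∀ m, m * m ≤ n → m ≤ M)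
    (ha : 1 ≤ a) (haB : a ≤ B ^ e) (hs : s ≤ 2 ^ (B ^ e)) (hCt : C * (t + 1) * l < B) :
    ∃ k σ : ℕ, 1 ≤ k ∧ k ≤ M / 2 ∧ (8 * (a + 1) * (t + 1) ^ 2 * σ) ^ 2 < k ∧
      (8 * a * k ^ 2 * (Nat.log 2 M + 2)) ^ (t + 1) ≤ M - (M / 2 - k) ∧
      2 * (s + 1 + M * M) < 2 ^ σ := by
  have hB0 : 0 < B := by omega
  have hBe : 1 ≤ B ^ e := Nat.one_le_pow _ _ hB0
  -- `t + 1 ≤ B`
  have htB : t + 1 ≤ B := by
    have h1 : 1 * (t + 1) * 1 ≤ C * (t + 1) * l :=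
      Nat.mul_le_mul (Nat.mul_le_mul (by omega) le_rfl) hl1
    omega
  set W := 2 * ((2 * (4 * e + 11) + e + 2) * (t + 1) * l) with hW
  have hWB : 16 * W < B := by
    have h1 : 16 * W ≤ C * (t + 1) * l := by
      rw [hW]
      calc 16 * (2 * ((2 * (4 * e + 11) + e + 2) * (t + 1) * l))
          = (32 * (9 * e + 24)) * ((t + 1) * l) := by ring
        _ ≤ (100 * (4 * e + 12)) * ((t + 1) * l) := Nat.mul_le_mul_right _ (by omega)
        _ ≤ C * ((t + 1) * l) := Nat.mul_le_mul_right _ hC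
        _ = C * (t + 1) * l := by ring
    omega
  -- `M` is large
  have hM4 : 4 * 2 ^ W ≤ M := by
    apply hM'
    have h1 : 4 * 2 ^ W * (4 * 2 ^ W) = 2 ^ (2 * W + 4) := by
      rw [pow_add, two_mul, pow_add]
      ring
    rw [h1]
    have h2 : 2 ^ (2 * W + 4) ≤ 2 ^ (B - 1) := Nat.pow_le_pow_right (by norm_num) (by omega)
    have h3 : 2 ^ B = 2 * 2 ^ (B - 1) := by
      rw [← pow_succ']
      congr 1
      omega
    have h4 : 2 ^ 1 ≤ 2 ^ (B - 1) := Nat.pow_le_pow_right (by norm_num) (by omega)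
    omega
  have hM1 : 1 ≤ M := by
    have : 1 ≤ 2 ^ W := Nat.one_le_two_pow
    omega
  -- `log M + 2 ≤ B`
  have hlogM : Nat.log 2 M + 2 ≤ B := by
    have h1 : 2 ^ Nat.log 2 M ≤ M := Nat.pow_log_le_self 2 (by omega)
    have h2 : 2 ^ (2 * Nat.log 2 M) < 2 ^ (B + 1) := by
      calc 2 ^ (2 * Nat.log 2 M) = 2 ^ Nat.log 2 M * 2 ^ Nat.log 2 M := by rw [two_mul, pow_add]
        _ ≤ M * M := Nat.mul_le_mul h1 h1
        _ < 2 ^ (B + 1) := by omega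
    have h3 : 2 * Nat.log 2 M < B + 1 := (Nat.pow_lt_pow_iff_right (by norm_num)).mp h2
    omega
  set k := B ^ (4 * e + 11) with hk
  have hk1 : 1 ≤ k := Nat.one_le_pow _ _ hB0
  set P := 8 * a * k ^ 2 * (Nat.log 2 M + 2) with hP
  have hPB : P ≤ B ^ (2 * (4 * e + 11) + e + 2) := by
    have h1 : 8 * a ≤ B ^ (e + 1) := by
      calc 8 * a ≤ B * B ^ e := Nat.mul_le_mul (by omega) haB
        _ = B ^ (e + 1) := by ring
    calc P ≤ B ^ (e + 1) * (B ^ (4 * e + 11)) ^ 2 * B := by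
          rw [hP]
          exact Nat.mul_le_mul (Nat.mul_le_mul h1 le_rfl) hlogM
      _ = B ^ (2 * (4 * e + 11) + e + 2) := by
          rw [← pow_mul, ← pow_add, ← pow_succ]
          congr 1
          ring
  have hPt : P ^ (t + 1) ≤ 2 ^ W := by
    calc P ^ (t + 1) ≤ (B ^ (2 * (4 * e + 11) + e + 2)) ^ (t + 1) := Nat.pow_le_pow_left hPB _
      _ = B ^ ((2 * (4 * e + 11) + e + 2) * (t + 1)) := by rw [← pow_mul]
      _ ≤ (2 ^ (l + 1)) ^ ((2 * (4 * e + 11) + e + 2) * (t + 1)) := Nat.pow_le_pow_left hBl.le _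
      _ = 2 ^ ((l + 1) * ((2 * (4 * e + 11) + e + 2) * (t + 1))) := by rw [← pow_mul]
      _ ≤ 2 ^ W := by
        apply Nat.pow_le_pow_right (by norm_num)
        rw [hW]
        calc (l + 1) * ((2 * (4 * e + 11) + e + 2) * (t + 1))
            ≤ (2 * l) * ((2 * (4 * e + 11) + e + 2) * (t + 1)) := Nat.mul_le_mul_right _ (by omega)
          _ = 2 * ((2 * (4 * e + 11) + e + 2) * (t + 1) * l) := by ring
  have hkP : k ≤ P := by
    rw [hP]
    have h1 : 1 ≤ 8 * a := by omega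
    have h2 : k ≤ k ^ 2 := by
      rw [pow_two]
      exact Nat.le_mul_of_pos_left _ hk1
    calc k ≤ k ^ 2 := h2
      _ = 1 * k ^ 2 * 1 := by ring
      _ ≤ 8 * a * k ^ 2 * (Nat.log 2 M + 2) := Nat.mul_le_mul (Nat.mul_le_mul h1 le_rfl) (by omega)
  have hkW : k ≤ 2 ^ W := by
    have h1 : 1 ≤ P := hk1.trans hkP
    calc k ≤ P := hkP
      _ = P ^ 1 := (pow_one P).symm
      _ ≤ P ^ (t + 1) := Nat.pow_le_pow_right h1 (by omega)
      _ ≤ 2 ^ W := hPt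
  have hfin : P ^ (t + 1) ≤ M - (M / 2 - k) := by omega
  refine ⟨k, B ^ e + B + 3, hk1, by omega, ?_, hfin, ?_⟩
  · have h1 : B ^ e + B + 3 ≤ B ^ (e + 2) := by
      have h2 : B ^ (e + 2) = B ^ e * (B * B) := by ring
      rw [h2]
      have h3 : 16 * B ≤ B * B := Nat.mul_le_mul_right _ hB16
      have h4 : B ^ e * (16 * B) ≤ B ^ e * (B * B) := Nat.mul_le_mul_left _ h3
      have h5 : 1 * B ≤ B ^ e * B := Nat.mul_le_mul_right _ hBe
      have h6 : B ^ e * 1 ≤ B ^ e * B := Nat.mul_le_mul_left _ hB0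
      have h7 : B ^ e * (16 * B) = 16 * (B ^ e * B) := by ring
      omega
    have h2 : 8 * (a + 1) ≤ B ^ (e + 1) := by
      calc 8 * (a + 1) ≤ 16 * B ^ e := by omega
        _ ≤ B * B ^ e := Nat.mul_le_mul_right _ hB16
        _ = B ^ (e + 1) := by ring
    have h3 : 8 * (a + 1) * (t + 1) ^ 2 * (B ^ e + B + 3) ≤ B ^ (e + 1) * B ^ 2 * B ^ (e + 2) :=
      Nat.mul_le_mul (Nat.mul_le_mul h2 (Nat.pow_le_pow_left htB 2)) h1
    calc (8 * (a + 1) * (t + 1) ^ 2 * (B ^ e + B + 3)) ^ 2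
        ≤ (B ^ (e + 1) * B ^ 2 * B ^ (e + 2)) ^ 2 := Nat.pow_le_pow_left h3 2
      _ = B ^ (4 * e + 10) := by
        rw [← pow_add, ← pow_add, ← pow_mul]
        congr 1
        ring
      _ < k := by
        rw [hk]
        exact Nat.pow_lt_pow_right (by omega) (by omega)
  · have hx : 1 ≤ 2 ^ (B ^ e) := Nat.one_le_two_pow
    have hy : 1 ≤ 2 ^ B := Nat.one_le_two_pow
    have h1 : 2 ^ (B ^ e + B + 3) = 8 * (2 ^ (B ^ e) * 2 ^ B) := by
      rw [pow_add, pow_add]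
      ring
    have h2 : 2 ^ (B + 1) = 2 * 2 ^ B := by ring
    have h3 : 1 * 2 ^ B ≤ 2 ^ (B ^ e) * 2 ^ B := Nat.mul_le_mul_right _ hx
    have h4 : 2 ^ (B ^ e) * 1 ≤ 2 ^ (B ^ e) * 2 ^ B := Nat.mul_le_mul_left _ hy
    rw [h1]
    omega

theorem HCB : HCB_stmt := by
  intro e
  refine ⟨100 * (4 * e + 12) + 2 ^ 16, ?_⟩
  intro n hn a t s ha haB hs hCt
  have hB16 : 16 ≤ lg n := by
    have : 16 ≤ Nat.log 2 (n + 2) := Nat.le_log_of_pow_le (by norm_num) (by omega)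
    exact this
  refine HCB_core e (100 * (4 * e + 12) + 2 ^ 16) n a t s (lg n) (lg (lg n)) (Nat.sqrt n) (by omega) hB16 ?_ ?_ ?_ ?_
    (Nat.sqrt_le n) (fun m hm => Nat.le_sqrt.mpr hm) ha haB hs hCt
  · exact Nat.pow_log_le_self 2 (by omega)
  · exact Nat.lt_pow_succ_log_self (b := 2) (by norm_num) (n + 2)
  · exact Nat.log_pos (by norm_num) (by omega)
  · have := Nat.lt_pow_succ_log_self (b := 2) (by norm_num) (lg n + 2)
    have h2 : lg n + 2 < 2 ^ (lg (lg n) + 1) := this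
    omega

end Pool.Agent.HM
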