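import Pool.Agent.helper80.HM.SpecC
import Pool.Agent.helper13.LN.HNP

/-!
# MP_069684, row hm:THR: the threshold for the nesting depth
-/

set_option autoImplicit false

namespace Pool.Agent.HM

open Finset Pool.Agent.helper38.Neg Pool.Agent.helper55.NT
open Pool.Agent.LN (HC)

private theorem THR_lg_one (n : ℕ) : 1 ≤ lg n := by
  unfold lg
  exact Nat.log_pos (by norm_num) (by omega)

private theorem THR_lt (n : ℕ) : n < 2 * 2 ^ lg n := by
  have h := Nat.lt_pow_succ_log_self (b := 2) (by norm_num) (n + 2)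
  unfold lg
  rw [Nat.succ_eq_add_one, pow_succ] at h
  omega

private theorem THR_le (n : ℕ) : 2 ^ lg n ≤ n + 2 := by
  unfold lg
  exact Nat.pow_log_le_self 2 (by omega)

private theorem THR_grow (t : ℕ → ℕ) (n0 : ℕ) (h : ∀ n ≥ n0, 2 * lg n ≤ t n * lg (lg n)) :
    ∃ c, ∀ n, n ≤ c * ((lg n + 3 + 1) / 2) ^ t n := by
  refine ⟨n0 + 2, fun n => ?_⟩
  have hq1 : 1 ≤ (lg n + 3 + 1) / 2 := by omega
  have hqt : 1 ≤ ((lg n + 3 + 1) / 2) ^ t n := Nat.one_le_pow _ _ hq1
  by_cases hn : n < n0 + 2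
  · calc n ≤ (n0 + 2) * 1 := by omega
      _ ≤ (n0 + 2) * ((lg n + 3 + 1) / 2) ^ t n := Nat.mul_le_mul_left _ hqt
  · have hn0 : n0 ≤ n := by omega
    have hn2 : 2 ≤ n := by omega
    have h1 := h n hn0
    have hlg : 2 ≤ lg n := by
      unfold lg
      exact Nat.le_log_of_pow_le (by norm_num) (by omega)
    have hm : 2 ≤ lg (lg n) := by
      have : 2 ≤ Nat.log 2 (lg n + 2) := Nat.le_log_of_pow_le (by norm_num) (by omega)
      exact this
    have hpow := THR_le (lg n)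
    obtain ⟨m, hm'⟩ : ∃ m, lg (lg n) = m + 1 := ⟨lg (lg n) - 1, by omega⟩
    rw [hm'] at h1 hpow hm
    have hq : 2 ^ m ≤ (lg n + 3 + 1) / 2 := by
      rw [pow_succ] at hpow
      omega
    have h2 : lg n ≤ m * t n := by
      have : t n * (m + 1) ≤ 2 * (m * t n) := by
        have h3 : t n * 1 ≤ t n * m := Nat.mul_le_mul_left _ (by omega)
        nlinarith
      omega
    have h3 : 2 ^ lg n ≤ ((lg n + 3 + 1) / 2) ^ t n := by
      calc 2 ^ lg n ≤ 2 ^ (m * t n) := Nat.pow_le_pow_right (by norm_num) h2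
        _ = (2 ^ m) ^ t n := by rw [pow_mul]
        _ ≤ ((lg n + 3 + 1) / 2) ^ t n := Nat.pow_le_pow_left hq _
    have h4 := THR_lt n
    calc n ≤ 2 * 2 ^ lg n := h4.le
      _ ≤ (n0 + 2) * ((lg n + 3 + 1) / 2) ^ t n := Nat.mul_le_mul (by omega) h3

theorem THR (hCRM : CRM_stmt) (hHCM : HCM_stmt) : THR_stmt := by
  constructor
  · rintro t ⟨n0, h⟩
    refine hCRM (fun n => lg n + 3) t (fun n => by simp) ⟨4, fun n => ?_⟩ ?_
    · have := THR_lg_one n
      change lg n + 3 ≤ 4 * lg n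
      omega
    · exact THR_grow t n0 h
  · obtain ⟨C, hC⟩ := hHCM 2
    refine ⟨C, fun t ht hall => ?_⟩
    obtain ⟨hNP, hmono⟩ := Pool.Agent.LN.HNP
    obtain ⟨p, hp⟩ := hall HC hNP hmono
    obtain ⟨k, hk⟩ := eval_le_two_pow p
    obtain ⟨n, hn, hlt⟩ := ht (max C (2 ^ (k + 4)))
    have hnC : C ≤ n := (le_max_left _ _).trans hn
    have hnk : 2 ^ (k + 4) ≤ n := (le_max_right _ _).trans hn
    have hlg : k + 4 ≤ lg n := by
      have : k + 4 ≤ Nat.log 2 (n + 2) := Nat.le_log_of_pow_le (by norm_num) (by omega)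
      exact this
    obtain ⟨s, hs, c, o, hc, hval⟩ := hp n
    have h1 := hC n hnC (lg n + 3) (t n) s c o (by omega) (by nlinarith) ?_ hc hval
    · omega
    · refine hs.trans ((hk n).trans ?_)
      apply Nat.pow_le_pow_right (by norm_num)
      rw [pow_one, pow_two]
      exact Nat.mul_le_mul_right _ (by omega)

end Pool.Agent.HM
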