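import Pool.Agent.helper80.HM.SpecC

/-!
# MP_069684, row hm:UAC: straight line computations are circuits
-/

set_option autoImplicit false

namespace Pool.Agent.HM

open Finset Pool.Agent.helper38.Neg Pool.Agent.helper55.NT
open Pool.Agent.LN (HC)

section
variable {a n s d : ℕ} (C : HCircuit a n s) (hd : d ≤ a) (w : Fin d → Fin (n + s))
  (φ : (Fin d → Bool) → Bool)

private theorem UAC_vo (x : Fin n → Bool) (k : Fin (n + s)) :
    (HCircuit.snoc C hd w φ).val x (Fin.castSucc k) = C.val x k := by
  simp [HCircuit.val]

private theorem UAC_vn (x : Fin n → Bool) :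
    (HCircuit.snoc C hd w φ).val x (Fin.last (n + s)) = φ fun j => C.val x (w j) := by
  simp [HCircuit.val]

private theorem UAC_do (k : Fin (n + s)) :
    (HCircuit.snoc C hd w φ).depth (Fin.castSucc k) = C.depth k := by
  simp [HCircuit.depth]

open Classical in
private theorem UAC_dn :
    (HCircuit.snoc C hd w φ).depth (Fin.last (n + s)) =
      (univ.sup fun j => C.depth (w j)) + if Alt φ then 1 else 0 := by
  simp [HCircuit.depth]

end

private theorem UAC_pos {d : ℕ} {φ : (Fin d → Bool) → Bool} (h : Alt φ) : 0 < d := by
  rcases Nat.eq_zero_or_pos d with h0 | h0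
  · subst h0
    obtain ⟨u, v, _, _, _, _, _, h1, h2, _, _⟩ := h
    have : u = v := Subsingleton.elim _ _
    rw [this, h2] at h1
    exact absurd h1 (by simp)
  · exact h0

theorem UAC : UAC_stmt := by
  intro a n t L h
  induction h with
  | nil =>
    refine ⟨HCircuit.nil, ⟨fun i x y hxy => hxy i, fun i => Nat.zero_le _⟩, ?_⟩
    rintro p (⟨δ, _, hδ⟩ | ⟨i, hi⟩)
    · simp at hδ
    · exact ⟨i, fun x => by rw [hi]; rfl, Nat.zero_le _⟩
  | @gate L d δ f u φ hL hd hu hf hmono hδ hcase ih =>
    obtain ⟨C, hC, hop⟩ := ih
    choose w hw1 hw2 using fun j => hop (u j) (hu j)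
    have hval : ∀ x, (HCircuit.snoc C hd w φ).val x (Fin.last (n + L.length)) = f x := by
      intro x
      rw [UAC_vn, hf x]
      congr 1
      funext j
      exact hw1 j x
    have hdep : (HCircuit.snoc C hd w φ).depth (Fin.last (n + L.length)) ≤ δ := by
      classical
      rw [UAC_dn]
      by_cases hA : Alt φ
      · rw [if_pos hA]
        rcases hcase with hc | hc
        · exact absurd hA hc.1
        · have h0 := UAC_pos hA
          have h1 := hc ⟨0, h0⟩
          have h2 : (univ.sup fun j => C.depth (w j)) ≤ δ - 1 := by
            refine Finset.sup_le fun j _ => ?_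
            have h3 := hw2 j
            have h4 := hc j
            omega
          omega
      · rw [if_neg hA, add_zero]
        refine Finset.sup_le fun j _ => ?_
        have h3 := hw2 j
        rcases hcase with hc | hc
        · exact h3.trans (hc.2 j)
        · have h4 := hc j
          omega
    refine ⟨HCircuit.snoc C hd w φ, ⟨?_, ?_⟩, ?_⟩
    · intro i
      refine Fin.lastCases (motive := fun i => Monotone fun x => (HCircuit.snoc C hd w φ).val x i)
        ?_ ?_ i
      · have e : (fun x => (HCircuit.snoc C hd w φ).val x (Fin.last (n + L.length))) = f := funext hval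
        change Monotone (fun x => (HCircuit.snoc C hd w φ).val x (Fin.last (n + L.length)))
        rw [e]
        exact hmono
      · intro k
        have e : (fun x => (HCircuit.snoc C hd w φ).val x (Fin.castSucc k)) = fun x => C.val x k :=
          funext fun x => UAC_vo C hd w φ x k
        change Monotone (fun x => (HCircuit.snoc C hd w φ).val x (Fin.castSucc k))
        rw [e]
        exact hC.mono k
    · intro i
      refine Fin.lastCases (motive := fun i => (HCircuit.snoc C hd w φ).depth i ≤ t) ?_ ?_ i
      · exact hdep.trans hδ
      · intro k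
        rw [UAC_do]
        exact hC.depth_le k
    · have hold : ∀ p, OpH L p → ∃ k, (∀ x, (HCircuit.snoc C hd w φ).val x k = p.1 x) ∧
          (HCircuit.snoc C hd w φ).depth k ≤ p.2 := by
        intro p hp
        obtain ⟨k, hk1, hk2⟩ := hop p hp
        refine ⟨Fin.castSucc k, fun x => ?_, ?_⟩
        · rw [UAC_vo]
          exact hk1 x
        · rw [UAC_do]
          exact hk2
      rintro p (⟨δ', hδ', hmem⟩ | hi)
      · rcases List.mem_cons.1 hmem with he | hmem
        · rw [Prod.mk.injEq] at he
          refine ⟨Fin.last (n + L.length), fun x => ?_, ?_⟩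
          · rw [hval, he.1]
          · refine hdep.trans ?_
            rw [← he.2]
            exact hδ'
        · exact hold p (Or.inl ⟨δ', hδ', hmem⟩)
      · exact hold p (Or.inr hi)

end Pool.Agent.HM
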